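import Pool.Agent.Helper20.MB.DefsG
import Pool.Agent.Helper76.HP.Q6aLin
import Pool.Agent.Helper93.HP.P4

/-!
# Bounds for arbitrary vectors (piece MB-9), from the formulas of MB-8c
-/

open Filter Metric Module Set
open scoped Topology ContDiff RealInnerProductSpace Manifold

set_option maxSynthPendingDepth 3

namespace Pool.Agent.Helper33.MB
open Pool.Agent.Helper20.PC Pool.Agent.Helper20.HP Pool.Agent.Helper20.M8 Pool.Agent.Helper20.MB

/-- Homogeneous functions are bounded by their values on unit vectors. -/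
theorem hom_bound {E : Type*} [NormedAddCommGroup E] [NormedSpace ℝ E] {g : E →L[ℝ] E →L[ℝ] ℝ}
    (hg : ∀ u, u ≠ 0 → 0 < g u u) (f : E → ℝ) {n : ℕ} (hn : n ≠ 0)
    (hf : ∀ (r : ℝ) a, f (r • a) = r ^ n * f a) {C : ℝ} (h : ∀ a, g a a = 1 → |f a| ≤ C) (a : E) :
    |f a| ≤ C * nrm g a ^ n := by
  by_cases ha : a = 0
  · subst ha
    have h0 := hf 0 0
    rw [smul_zero, zero_pow hn, zero_mul] at h0
    simp [h0, nrm, hn]
  · have hp := hg a ha
    have hr : 0 < nrm g a := Real.sqrt_pos.2 hp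
    have h1 : g ((nrm g a)⁻¹ • a) ((nrm g a)⁻¹ • a) = 1 := by
      have h2 : nrm g a ^ 2 = g a a := Real.sq_sqrt hp.le
      simp only [map_smul, _root_.smul_apply, smul_eq_mul]
      rw [← h2]
      field_simp
    have h3 : f a = nrm g a ^ n * f ((nrm g a)⁻¹ • a) := by
      rw [← hf, smul_inv_smul₀ hr.ne']
    rw [h3, abs_mul, abs_of_pos (pow_pos hr n), mul_comm C]
    exact mul_le_mul_of_nonneg_left (h _ h1) (pow_pos hr n).le

/-- The case of degree one. -/
theorem lin_bound {E : Type*} [NormedAddCommGroup E] [NormedSpace ℝ E] {g : E →L[ℝ] E →L[ℝ] ℝ}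
    (hg : ∀ u, u ≠ 0 → 0 < g u u) (f : E → ℝ)
    (hf : ∀ (r : ℝ) a, f (r • a) = r * f a) {C : ℝ} (h : ∀ a, g a a = 1 → |f a| ≤ C) (a : E) :
    |f a| ≤ C * nrm g a := by
  have := hom_bound hg f one_ne_zero (fun r a => by rw [hf, pow_one]) h a
  rwa [pow_one] at this

section
variable {B W : Type*} [NormedAddCommGroup B] [NormedSpace ℝ B]
  [NormedAddCommGroup W] [NormedSpace ℝ W] {A : B → B →L[ℝ] W →L[ℝ] W}
  {S : B → W →L[ℝ] W →L[ℝ] W →L[ℝ] W →L[ℝ] ℝ} {h : B → B →L[ℝ] B →L[ℝ] ℝ} {x : B}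

theorem OmV_smul (A : B → B →L[ℝ] W →L[ℝ] W) (x : B) (r s : ℝ) (ζ ζ' : B) :
    OmV A x (r • ζ) (s • ζ') = (r * s) • OmV A x ζ ζ' := by
  ext w
  simp only [OmV, map_smul, _root_.smul_apply, _root_.add_apply, _root_.sub_apply,
    ContinuousLinearMap.comp_apply, smul_add, smul_sub, smul_smul, mul_comm s r]

theorem DOmV_smul [FiniteDimensional ℝ B] (hh : MetAt h x) (r s t : ℝ) (ξ ζ ζ' : B) :
    DOmV h A x (r • ξ) (s • ζ) (t • ζ') = (r * s * t) • DOmV h A x ξ ζ ζ' := by
  have e : fderiv ℝ (fun x' => OmV A x' (s • ζ) (t • ζ')) x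
      = (s * t) • fderiv ℝ (fun x' => OmV A x' ζ ζ') x := by
    have e1 : (fun x' => OmV A x' (s • ζ) (t • ζ')) = (s * t) • (fun x' => OmV A x' ζ ζ') := by
      funext x'
      rw [OmV_smul]
      rfl
    rw [e1, fderiv_const_smul_field]
    rfl
  have f1 := OmV_smul A x s t ζ ζ'
  have g1 : Gam h x (r • ξ) (s • ζ) = (r * s) • Gam h x ξ ζ := by
    rw [Pool.Agent.Helper76.HP.Gam_smul_left hh, Pool.Agent.Helper76.HP.Gam_smul_right hh,
      smul_smul]
  have g2 : Gam h x (r • ξ) (t • ζ') = (r * t) • Gam h x ξ ζ' := by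
    rw [Pool.Agent.Helper76.HP.Gam_smul_left hh, Pool.Agent.Helper76.HP.Gam_smul_right hh,
      smul_smul]
  rw [DOmV, e, f1, g1, g2, OmV_smul, OmV_smul, DOmV]
  ext w
  simp only [map_smul, _root_.smul_apply, _root_.add_apply, _root_.sub_apply,
    ContinuousLinearMap.comp_apply]
  module

theorem dS4_scal (S : B → W →L[ℝ] W →L[ℝ] W →L[ℝ] W →L[ℝ] ℝ) (x ζ : B) (r : ℝ)
    (a b c d a' b' c' d' : W)
    (e : ∀ x', S x' a' b' c' d' = r * S x' a b c d) :
    dS4 S x ζ a' b' c' d' = r * dS4 S x ζ a b c d := by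
  have e1 : (fun x' => S x' a' b' c' d') = r • (fun x' => S x' a b c d) := by
    funext x'
    rw [e]
    rfl
  rw [dS4, e1, fderiv_const_smul_field]
  rfl

theorem dS4_smul (S : B → W →L[ℝ] W →L[ℝ] W →L[ℝ] W →L[ℝ] ℝ) (x ζ : B) (r : ℝ) (a b c d : W) :
    dS4 S x (r • ζ) a b c d = r * dS4 S x ζ a b c d := by
  rw [dS4, dS4, map_smul, smul_eq_mul]

theorem hS4_scal (S : B → W →L[ℝ] W →L[ℝ] W →L[ℝ] W →L[ℝ] ℝ) (x ξ ζ : B) (r : ℝ)
    (a b c d a' b' c' d' : W)
    (e : ∀ x', S x' a' b' c' d' = r * S x' a b c d) :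
    hS4 h S x ξ ζ a' b' c' d' = r * hS4 h S x ξ ζ a b c d := by
  have e1 : (fun x' => dS4 S x' ζ a' b' c' d') = r • (fun x' => dS4 S x' ζ a b c d) := by
    funext x'
    rw [dS4_scal S x' ζ r a b c d a' b' c' d' e]
    rfl
  rw [hS4, ddS4, e1, fderiv_const_smul_field, dS4_scal S x _ r a b c d a' b' c' d' e, hS4, ddS4]
  simp only [Pi.smul_apply, _root_.smul_apply, smul_eq_mul]
  ring

theorem hS4_smul [FiniteDimensional ℝ B] (hh : MetAt h x)
    (S : B → W →L[ℝ] W →L[ℝ] W →L[ℝ] W →L[ℝ] ℝ) (r s : ℝ) (ξ ζ : B) (a b c d : W) :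
    hS4 h S x (r • ξ) (s • ζ) a b c d = r * s * hS4 h S x ξ ζ a b c d := by
  have e1 : (fun x' => dS4 S x' (s • ζ) a b c d) = s • (fun x' => dS4 S x' ζ a b c d) := by
    funext x'
    rw [dS4_smul]
    rfl
  rw [hS4, ddS4, e1, fderiv_const_smul_field, Pool.Agent.Helper76.HP.Gam_smul_left hh,
    Pool.Agent.Helper76.HP.Gam_smul_right hh, dS4_smul, dS4_smul, hS4, ddS4, map_smul]
  simp only [Pi.smul_apply, _root_.smul_apply, smul_eq_mul]
  ring

end

section
variable {V Y : Type*} [NormedAddCommGroup V] [NormedSpace ℝ V] [FiniteDimensional ℝ V]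
  [NormedAddCommGroup Y] [NormedSpace ℝ Y] [FiniteDimensional ℝ Y] {D : BD V Y} {x : V}

omit [FiniteDimensional ℝ Y] in
theorem bdN_of_lie (H : D.Good x) (N : NG D.h D.k D.S D.A x) {b : ℝ} (h1 : 1 ≤ b)
    (hb : D.Bdd x b)
    (L : ∀ (X U : V) (a b c d : Y),
      lie D.Xs D.OmS (x, X, U, a, b, c, d) = D.k x a (DOmV D.h D.A x X X U b) ∧
      lie D.Xs D.SS (x, X, U, a, b, c, d) = dS4 D.S x X a b c d ∧
      lie D.Xs (lie D.Xs D.SS) (x, X, U, a, b, c, d) = hS4 D.h D.S x X X a b c d) :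
    BdN D.h D.k D.S D.A x b := by
  have gh : ∀ u, u ≠ 0 → 0 < D.h x u u := H.hpos.self_of_nhds
  have gk : ∀ p, p ≠ 0 → 0 < D.k x p p := H.kpos.self_of_nhds
  have hh := N.hh
  refine ⟨h1, ?_, ?_, ?_, ?_, ?_, ?_⟩
  · intro X Z
    have n2 : (2 : ℕ) ≠ 0 := two_ne_zero
    refine hom_bound gh (fun Z => num D.h x X Z) n2 (fun r Z => ?_) (fun Z hZ => ?_) Z
    · have := Pool.Agent.Helper93.HP.num_comb hh 1 0 0 r X Z
      simp only [one_smul, zero_smul, add_zero, zero_add] at this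
      rw [this]
      ring
    · refine hom_bound gh (fun X => num D.h x X Z) n2 (fun r X => ?_) (fun X hX => ?_) X
      · have := Pool.Agent.Helper93.HP.num_comb hh r 0 0 1 X Z
        simp only [one_smul, zero_smul, add_zero, zero_add] at this
        rw [this]
        ring
      · exact hb.num X Z hX hZ
  · intro X Z p q
    refine lin_bound gk (fun q => D.k x p (OmV D.A x X Z q)) (fun r q => by simp) (fun q hq => ?_) q
    refine lin_bound gk (fun p => D.k x p (OmV D.A x X Z q)) (fun r p => by simp) (fun p hp => ?_) p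
    refine lin_bound gh (fun Z => D.k x p (OmV D.A x X Z q)) (fun r Z => ?_) (fun Z hZ => ?_) Z
    · have := OmV_smul D.A x 1 r X Z
      rw [one_smul, one_mul] at this
      simp [this]
    refine lin_bound gh (fun X => D.k x p (OmV D.A x X Z q)) (fun r X => ?_) (fun X hX => ?_) X
    · have := OmV_smul D.A x r 1 X Z
      rw [one_smul, mul_one] at this
      simp [this]
    exact hb.Om X Z p q hX hZ hp hq
  · intro X Z p q
    refine lin_bound gk (fun q => D.k x p (DOmV D.h D.A x X X Z q)) (fun r q => by simp)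
      (fun q hq => ?_) q
    refine lin_bound gk (fun p => D.k x p (DOmV D.h D.A x X X Z q)) (fun r p => by simp)
      (fun p hp => ?_) p
    refine lin_bound gh (fun Z => D.k x p (DOmV D.h D.A x X X Z q)) (fun r Z => ?_)
      (fun Z hZ => ?_) Z
    · have := DOmV_smul (A := D.A) hh 1 1 r X X Z
      rw [one_smul, one_mul, one_mul] at this
      simp [this]
    refine hom_bound gh (fun X => D.k x p (DOmV D.h D.A x X X Z q)) two_ne_zero (fun r X => ?_)
      (fun X hX => ?_) X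
    · have := DOmV_smul (A := D.A) hh r r 1 X X Z
      rw [one_smul, mul_one] at this
      simp [this, pow_two]
    have := hb.dOm X Z p q hX hZ hp hq
    rwa [(L X Z p q p q).1] at this
  · intro p q r s
    refine lin_bound gk (fun s => D.S x p q r s) (fun t s => by simp) (fun s hs => ?_) s
    refine lin_bound gk (fun r => D.S x p q r s) (fun t s => by simp) (fun r hr => ?_) r
    refine lin_bound gk (fun q => D.S x p q r s) (fun t s => by simp) (fun q hq => ?_) q
    refine lin_bound gk (fun p => D.S x p q r s) (fun t s => by simp) (fun p hp => ?_) p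
    exact hb.S p q r s hp hq hr hs
  · intro X p q r s
    refine lin_bound gk (fun s => dS4 D.S x X p q r s)
      (fun t s => dS4_scal _ _ _ _ _ _ _ _ _ _ _ _ fun x' => by simp) (fun s hs => ?_) s
    refine lin_bound gk (fun r => dS4 D.S x X p q r s)
      (fun t s => dS4_scal _ _ _ _ _ _ _ _ _ _ _ _ fun x' => by simp) (fun r hr => ?_) r
    refine lin_bound gk (fun q => dS4 D.S x X p q r s)
      (fun t s => dS4_scal _ _ _ _ _ _ _ _ _ _ _ _ fun x' => by simp) (fun q hq => ?_) q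
    refine lin_bound gk (fun p => dS4 D.S x X p q r s)
      (fun t s => dS4_scal _ _ _ _ _ _ _ _ _ _ _ _ fun x' => by simp) (fun p hp => ?_) p
    refine lin_bound gh (fun X => dS4 D.S x X p q r s) (fun t X => dS4_smul _ _ _ _ _ _ _ _)
      (fun X hX => ?_) X
    have := hb.dS X p q r s hX hp hq hr hs
    rwa [(L X X p q r s).2.1] at this
  · intro X p q r s
    refine lin_bound gk (fun s => hS4 D.h D.S x X X p q r s)
      (fun t s => hS4_scal _ _ _ _ _ _ _ _ _ _ _ _ _ fun x' => by simp) (fun s hs => ?_) s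
    refine lin_bound gk (fun r => hS4 D.h D.S x X X p q r s)
      (fun t s => hS4_scal _ _ _ _ _ _ _ _ _ _ _ _ _ fun x' => by simp) (fun r hr => ?_) r
    refine lin_bound gk (fun q => hS4 D.h D.S x X X p q r s)
      (fun t s => hS4_scal _ _ _ _ _ _ _ _ _ _ _ _ _ fun x' => by simp) (fun q hq => ?_) q
    refine lin_bound gk (fun p => hS4 D.h D.S x X X p q r s)
      (fun t s => hS4_scal _ _ _ _ _ _ _ _ _ _ _ _ _ fun x' => by simp) (fun p hp => ?_) p
    refine hom_bound gh (fun X => hS4 D.h D.S x X X p q r s) two_ne_zero (fun t X => ?_)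
      (fun X hX => ?_) X
    · rw [hS4_smul hh, pow_two]
    have := hb.ddS X p q r s hX hp hq hr hs
    rwa [(L X X p q r s).2.2] at this

end

end Pool.Agent.Helper33.MB
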